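import Mathlib
import Pool.Agent.W989.TN.Stm

set_option autoImplicit false
set_option linter.unusedSectionVars false

namespace Pool.Agent.W944.TN

open Matrix Finset Pool.Agent.W989.TN

/-- The displacement of `M`: the entry at `(i, j)` minus the entry at `(i - 1, j - 1)`. -/
def disp {K : Type} [Field K] {N : ℕ} (M : Matrix (Fin N) (Fin N) K) : Matrix (Fin N) (Fin N) K :=
  fun i j => M i j - if 0 < (i : ℕ) ∧ 0 < (j : ℕ) then
    M ⟨(i : ℕ) - 1, by have := i.2; omega⟩ ⟨(j : ℕ) - 1, by have := j.2; omega⟩ else 0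

theorem rank_le_of_eq_mul {K : Type*} [Field K] {m n k : Type*} [Fintype n] [Fintype k]
    (A : Matrix m n K) (P : Matrix m k K) (Q : Matrix k n K) (h : A = P * Q) :
    A.rank ≤ Fintype.card k := by
  rw [h]
  exact (rank_mul_le_right P Q).trans (rank_le_card_height Q)

theorem exists_factor {K : Type*} [Field K] {m n : Type*} [Fintype m] [Fintype n]
    (A : Matrix m n K) :
    ∃ (P : Matrix m (Fin A.rank) K) (Q : Matrix (Fin A.rank) n K), A = P * Q := by
  classical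
  have h1 : Module.finrank K (Submodule.span K (Set.range A.col)) = A.rank :=
    (rank_eq_finrank_span_cols A).symm
  let b : Module.Basis (Fin A.rank) K (Submodule.span K (Set.range A.col)) :=
    Module.finBasisOfFinrankEq K _ h1
  refine ⟨Matrix.of fun x i => (b i : m → K) x,
    Matrix.of fun i y => b.repr ⟨A.col y, Submodule.subset_span ⟨y, rfl⟩⟩ i, ?_⟩
  ext x y
  rw [Matrix.mul_apply]
  simp only [Matrix.of_apply]
  have h2 := b.sum_repr ⟨A.col y, Submodule.subset_span ⟨y, rfl⟩⟩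
  have h3 := congrArg (fun w : Submodule.span K (Set.range A.col) => (w : m → K) x) h2
  simp only [Submodule.coe_sum, Submodule.coe_smul, Finset.sum_apply, Pi.smul_apply,
    smul_eq_mul] at h3
  rw [show A x y = A.col y x from rfl, ← h3]
  exact Finset.sum_congr rfl fun i _ => mul_comm _ _

theorem exists_factor_le {K : Type*} [Field K] {m n : Type*} [Fintype m] [Fintype n]
    (A : Matrix m n K) (a : ℕ) (h : A.rank ≤ a) :
    ∃ (P : m → Fin a → K) (Q : Fin a → n → K), ∀ x y, A x y = ∑ k, P x k * Q k y := by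
  classical
  obtain ⟨P, Q, hPQ⟩ := exists_factor A
  refine ⟨fun x k => if hk : (k : ℕ) < A.rank then P x ⟨k, hk⟩ else 0,
    fun k y => if hk : (k : ℕ) < A.rank then Q ⟨k, hk⟩ y else 0, fun x y => ?_⟩
  have h1 : A x y = ∑ k, P x k * Q k y := by
    conv_lhs => rw [hPQ]
    rw [Matrix.mul_apply]
  rw [h1]
  refine Finset.sum_of_injOn (Fin.castLE h) ?_ ?_ ?_ ?_
  · exact (Fin.castLE_injective h).injOn
  · intro x _; simp
  · intro k _ hk
    have : ¬ (k : ℕ) < A.rank := by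
      intro hlt
      exact hk ⟨⟨k, hlt⟩, by simp, by ext; simp⟩
    simp [this]
  · intro k _
    simp

theorem conv_zero_left (f g : ℤ → ℂ) (hf : ∀ t, t < 0 → f t = 0) (N : ℕ) (hN : 0 < N) (j : ℕ) :
    ∑ t ∈ range N, f ((0 : ℕ) - (t : ℕ) : ℤ) * g ((t : ℕ) - (j : ℕ) : ℤ) = f 0 * g (-(j : ℤ)) := by
  rw [Finset.sum_eq_single 0]
  · simp
  · intro t _ ht
    rw [hf _ (by push_cast; omega), zero_mul]
  · intro h
    exact absurd (mem_range.mpr hN) h

theorem conv_zero_right (f g : ℤ → ℂ) (hg : ∀ t, 0 < t → g t = 0) (N : ℕ) (hN : 0 < N) (i : ℕ) :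
    ∑ t ∈ range N, f ((i : ℕ) - (t : ℕ) : ℤ) * g ((t : ℕ) - (0 : ℕ) : ℤ) = f i * g 0 := by
  rw [Finset.sum_eq_single 0]
  · simp
  · intro t _ ht
    rw [hg _ (by push_cast; omega), mul_zero]
  · intro h
    exact absurd (mem_range.mpr hN) h

theorem conv_succ (f g : ℤ → ℂ) (hf : ∀ t, t < 0 → f t = 0) (N : ℕ) (i j : ℕ) (hi : i < N) :
    ∑ t ∈ range (N + 1), f (((i + 1 : ℕ) : ℤ) - (t : ℕ)) * g ((t : ℕ) - ((j + 1 : ℕ) : ℤ)) =
    ∑ t ∈ range (N + 1), f ((i : ℕ) - (t : ℕ) : ℤ) * g ((t : ℕ) - (j : ℕ) : ℤ) +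
      f ((i + 1 : ℕ) : ℤ) * g (-((j + 1 : ℕ) : ℤ)) := by
  rw [Finset.sum_range_succ', Finset.sum_range_succ]
  rw [hf ((i : ℕ) - (N : ℕ) : ℤ) (by omega), zero_mul, add_zero]
  congr 1
  refine Finset.sum_congr rfl fun t _ => ?_
  congr 2 <;> push_cast <;> ring

theorem t_DSP (N α : ℕ) (M : Matrix (Fin N) (Fin N) ℂ) (h : (disp M).rank ≤ α) :
    ∃ f g : Fin α → ℤ → ℂ, M = ∑ k, toeplitz (f k) N * toeplitz (g k) N := by
  classical
  obtain ⟨X, Y, hXY⟩ := exists_factor_le (disp M) α h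
  let f : Fin α → ℤ → ℂ := fun k t =>
    if ht : 0 ≤ t ∧ t < N then X ⟨t.toNat, by omega⟩ k else 0
  let g : Fin α → ℤ → ℂ := fun k t =>
    if ht : 0 ≤ -t ∧ -t < N then Y k ⟨(-t).toNat, by omega⟩ else 0
  have hf : ∀ k t, t < 0 → f k t = 0 := by
    intro k t ht
    simp only [f]
    rw [dif_neg (by omega)]
  have hg : ∀ k t, 0 < t → g k t = 0 := by
    intro k t ht
    simp only [g]
    rw [dif_neg (by omega)]
  have hfX : ∀ k (i : Fin N), f k ((i : ℕ) : ℤ) = X i k := by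
    intro k i
    simp only [f]
    rw [dif_pos (by have := i.2; omega)]
    congr 1
  have hgY : ∀ k (j : Fin N), g k (-((j : ℕ) : ℤ)) = Y k j := by
    intro k j
    simp only [g]
    rw [dif_pos (by have := j.2; omega)]
    congr 1
    ext
    simp
  have hD : ∀ i j : Fin N, disp M i j = ∑ k, f k ((i : ℕ) : ℤ) * g k (-((j : ℕ) : ℤ)) := by
    intro i j
    rw [hXY i j]
    exact Finset.sum_congr rfl fun k _ => by rw [hfX, hgY]
  have key : ∀ i j : ℕ, ∀ (hi : i < N) (hj : j < N), M ⟨i, hi⟩ ⟨j, hj⟩ =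
      ∑ k, ∑ t ∈ range N, f k ((i : ℕ) - (t : ℕ) : ℤ) * g k ((t : ℕ) - (j : ℕ) : ℤ) := by
    intro i
    induction i with
    | zero =>
      intro j hi hj
      have h1 : disp M ⟨0, hi⟩ ⟨j, hj⟩ = M ⟨0, hi⟩ ⟨j, hj⟩ := by
        simp [disp]
      rw [← h1, hD]
      refine Finset.sum_congr rfl fun k _ => ?_
      rw [conv_zero_left (f k) (g k) (hf k) N (by omega) j]
      simp
    | succ i ih =>
      intro j hi hj
      cases j with
      | zero =>
        have h1 : disp M ⟨i + 1, hi⟩ ⟨0, hj⟩ = M ⟨i + 1, hi⟩ ⟨0, hj⟩ := by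
          simp [disp]
        rw [← h1, hD]
        refine Finset.sum_congr rfl fun k _ => ?_
        rw [conv_zero_right (f k) (g k) (hg k) N (by omega) (i + 1)]
        simp
      | succ j =>
        have h1 : disp M ⟨i + 1, hi⟩ ⟨j + 1, hj⟩ =
            M ⟨i + 1, hi⟩ ⟨j + 1, hj⟩ - M ⟨i, by omega⟩ ⟨j, by omega⟩ := by
          simp [disp]
        have h2 : M ⟨i + 1, hi⟩ ⟨j + 1, hj⟩ =
            M ⟨i, by omega⟩ ⟨j, by omega⟩ + disp M ⟨i + 1, hi⟩ ⟨j + 1, hj⟩ := by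
          rw [h1]; ring
        rw [h2, hD, ih j (by omega) (by omega), ← Finset.sum_add_distrib]
        refine Finset.sum_congr rfl fun k _ => ?_
        obtain ⟨N', rfl⟩ : ∃ N', N = N' + 1 := ⟨N - 1, by omega⟩
        exact (conv_succ (f k) (g k) (hf k) N' i j (by omega)).symm
  refine ⟨f, g, ?_⟩
  ext i j
  rw [Matrix.sum_apply]
  have h3 := key i j i.2 j.2
  rw [show M i j = M ⟨i, i.2⟩ ⟨j, j.2⟩ from rfl, h3]
  refine Finset.sum_congr rfl fun k _ => ?_
  rw [Matrix.mul_apply]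
  simp only [toeplitz]
  rw [← Fin.sum_univ_eq_sum_range (fun t => f k ((i : ℕ) - (t : ℕ) : ℤ) * g k ((t : ℕ) - (j : ℕ) : ℤ)) N]

theorem t_DSPR (N : ℕ) (M : Matrix (Fin N) (Fin N) ℝ) :
    (disp (M.map (fun x : ℝ => (x : ℂ)))).rank ≤ (disp M).rank := by
  classical
  obtain ⟨P, Q, h⟩ := exists_factor (disp M)
  have h1 : disp (M.map (fun x : ℝ => (x : ℂ))) =
      (P.map (fun x : ℝ => (x : ℂ))) * (Q.map (fun x : ℝ => (x : ℂ))) := by
    ext i j
    have h2 : disp (M.map (fun x : ℝ => (x : ℂ))) i j = ((disp M i j : ℝ) : ℂ) := by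
      simp only [disp, Matrix.map_apply]
      split_ifs <;> push_cast <;> ring
    have h3 : disp M i j = ∑ k, P i k * Q k j := by
      conv_lhs => rw [h]
      rw [Matrix.mul_apply]
    rw [h2, h3, Matrix.mul_apply]
    simp [Matrix.map_apply]
  have h4 := rank_le_of_eq_mul _ _ _ h1
  simpa using h4

end Pool.Agent.W944.TN
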